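import Mathlib

/-!
# Finite-dimensional prime algebras that are not sections

Let `k` be an infinite field (for instance an algebraically closed one) and let `Ω` be any
signature with at least one operation symbol of arity at least two.  We construct two
three-dimensional prime `Ω`-algebras `A` and `A'` over `k` such that `A` lies in the variety
generated by `A'` and `A` is isomorphic to no section of `A'`.
-/

set_option autoImplicit false

namespace Pool.Agent.Results.MP_2fa119_al.PrimeNotSection

universe u v w w'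

/-! ## Algebras over a signature -/

/-- An `Ω`-algebra structure over `k` on the vector space `A`: every operation symbol `ω` of
arity `n` (that is `ω : Ω n`) is interpreted by a `k`-multilinear map `A ^ n → A`.
For `n = 0` this is just a distinguished element of `A`. -/
structure OmegaAlgebra (k : Type u) [Field k] (Ω : ℕ → Type v) (A : Type w)
    [AddCommGroup A] [Module k A] where
  /-- the interpretation of the operation symbols -/
  op : ∀ n : ℕ, Ω n → MultilinearMap k (fun _ : Fin n => A) A

/-- The formal `Ω`-monomials in variables from `X`. -/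
inductive Monomial (Ω : ℕ → Type v) (X : Type) : Type v
  | var : X → Monomial Ω X
  | app : (n : ℕ) → Ω n → (Fin n → Monomial Ω X) → Monomial Ω X

/-- The free `Ω`-algebra on the countably many variables `0, 1, 2, …`: the vector space with
basis the formal monomials.  Its elements are the polynomials. -/
abbrev FreeOmega (k : Type u) [Field k] (Ω : ℕ → Type v) := Monomial Ω ℕ →₀ k

/-- The number of occurrences of the variable `x` in a monomial. -/
def Monomial.occ {Ω : ℕ → Type v} (x : ℕ) : Monomial Ω ℕ → ℕ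
  | Monomial.var y => if y = x then 1 else 0
  | Monomial.app _ _ args => ∑ i, Monomial.occ x (args i)

/-- `f` is a multilinear polynomial in the `N` variables `0, …, N - 1`: each of these occurs
exactly once in every monomial of `f`, and no other variable occurs. -/
def IsMultilinear {k : Type u} [Field k] {Ω : ℕ → Type v} (N : ℕ) (f : FreeOmega k Ω) : Prop :=
  ∀ m ∈ f.support, ∀ x : ℕ, Monomial.occ x m = if x < N then 1 else 0

section Defs

variable {k : Type u} [Field k] {Ω : ℕ → Type v}
variable {A : Type w} [AddCommGroup A] [Module k A]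
variable {A' : Type w'} [AddCommGroup A'] [Module k A']

/-- The value of a monomial under a substitution `s` of the variables by elements of `A`. -/
def evalMonomial (𝒜 : OmegaAlgebra k Ω A) (s : ℕ → A) : Monomial Ω ℕ → A
  | Monomial.var x => s x
  | Monomial.app n ω args => 𝒜.op n ω (fun i => evalMonomial 𝒜 s (args i))

/-- The value of a polynomial under a substitution. -/
noncomputable def evalPoly (𝒜 : OmegaAlgebra k Ω A) (s : ℕ → A) (f : FreeOmega k Ω) : A :=
  f.sum fun m c => c • evalMonomial 𝒜 s m

/-- `f` is a polynomial identity of `𝒜`. -/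
def IsIdentity (𝒜 : OmegaAlgebra k Ω A) (f : FreeOmega k Ω) : Prop :=
  ∀ s : ℕ → A, evalPoly 𝒜 s f = 0

/-- `𝒜` belongs to the variety generated by `𝒜'`: it satisfies every identity of `𝒜'`. -/
def MemVar (𝒜 : OmegaAlgebra k Ω A) (𝒜' : OmegaAlgebra k Ω A') : Prop :=
  ∀ f : FreeOmega k Ω, IsIdentity 𝒜' f → IsIdentity 𝒜 f

/-- The subspace `R` is a subalgebra of `𝒜`: it is closed under all operations. -/
def IsSubalgebra (𝒜 : OmegaAlgebra k Ω A) (R : Submodule k A) : Prop :=
  ∀ (n : ℕ) (ω : Ω n) (a : Fin n → A), (∀ i, a i ∈ R) → 𝒜.op n ω a ∈ R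

/-- The subspace `I` is an ideal of the subalgebra `R` of `𝒜`: it is contained in `R`, and
`ω (a₁, …, aₙ) ∈ I` whenever all `aⱼ ∈ R` and some `aᵢ ∈ I` (so that `n > 0`).  The ideals of
`𝒜` itself are obtained for `R = ⊤`. -/
def IsIdealOf (𝒜 : OmegaAlgebra k Ω A) (I R : Submodule k A) : Prop :=
  I ≤ R ∧ ∀ (n : ℕ) (ω : Ω n) (a : Fin n → A), (∀ j, a j ∈ R) → (∃ i, a i ∈ I) → 𝒜.op n ω a ∈ I

/-- The product `S₁ ⋯ Sₘ` of subsets of `𝒜`: the span of all `f (s₁, …, sₘ, a₁, …, aₜ)` with
`f` multilinear, `sᵢ ∈ Sᵢ` and `aⱼ ∈ A`. -/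
def setProd (𝒜 : OmegaAlgebra k Ω A) {m : ℕ} (S : Fin m → Set A) : Submodule k A :=
  Submodule.span k {b | ∃ (t : ℕ) (f : FreeOmega k Ω) (s : ℕ → A),
    IsMultilinear (m + t) f ∧ (∀ i : Fin m, s i ∈ S i) ∧ evalPoly 𝒜 s f = b}

/-- `𝒜` is prime: `I · J ≠ 0` for all nonzero ideals `I`, `J` of `𝒜`. -/
def IsPrimeAlgebra (𝒜 : OmegaAlgebra k Ω A) : Prop :=
  ∀ I J : Submodule k A, IsIdealOf 𝒜 I ⊤ → IsIdealOf 𝒜 J ⊤ → I ≠ ⊥ → J ≠ ⊥ →
    setProd 𝒜 ![(I : Set A), (J : Set A)] ≠ ⊥

/-- `𝒜` is isomorphic to a section `R / I` of `𝒜'`, where `R` is a subalgebra of `𝒜'` and `I`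
is an ideal of `R`: there is a linear isomorphism `R / I ≃ A` which commutes with the
operations (those of `R / I` being induced by those of `R`). -/
def IsSection (𝒜 : OmegaAlgebra k Ω A) (𝒜' : OmegaAlgebra k Ω A') : Prop :=
  ∃ (R I : Submodule k A') (hR : IsSubalgebra 𝒜' R), IsIdealOf 𝒜' I R ∧
    ∃ e : (R ⧸ I.comap R.subtype) ≃ₗ[k] A,
      ∀ (n : ℕ) (ω : Ω n) (a : Fin n → R),
        e (Submodule.Quotient.mk
            ⟨𝒜'.op n ω (fun i => (a i : A')), hR n ω _ fun i => (a i).2⟩) =
          𝒜.op n ω (fun i => e (Submodule.Quotient.mk (a i)))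

end Defs

/-! ## The algebras -/

section Construction

/-- Coordinates: `0` stands for `e₀`, `1` for `e₊`, `2` for `e₋`.  The underlying binary product is
`x * y = x₀ y + x₊ (y₋ e₀ + t y₊ e₊)`; the operation of arity `m + 2` is
`(a₁ * a₂) · (a₃)₀ ⋯ (a_{m+2})₀`. -/
def opS {S : Type u} [CommRing S] (t : S) (m : ℕ) (a : Fin (m + 2) → Fin 3 → S) : Fin 3 → S :=
  fun j => (∏ i : Fin m, a i.succ.succ 0) *
    (a 0 0 * a 1 j + a 0 1 * (if j = 0 then a 1 2 else if j = 1 then t * a 1 1 else 0))

variable (k : Type u) [Field k]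

/-- An elementary multilinear map. -/
noncomputable def term (m : ℕ) (p q : Fin 3) (v : Fin 3 → k) :
    MultilinearMap k (fun _ : Fin (m + 2) => Fin 3 → k) (Fin 3 → k) :=
  ((MultilinearMap.mkPiAlgebra k (Fin (m + 2)) k).compLinearMap
    (Fin.cons (LinearMap.proj p) (Fin.cons (LinearMap.proj q) fun _ => LinearMap.proj 0))).smulRight
    v

theorem term_apply (m : ℕ) (p q : Fin 3) (v : Fin 3 → k) (a : Fin (m + 2) → Fin 3 → k) :
    term k m p q v a = ((a 0 p) * ((a 1 q) * ∏ i : Fin m, a i.succ.succ 0)) • v := by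
  simp [term, Fin.prod_univ_succ]

/-- The operation `opS` as a multilinear map. -/
noncomputable def opM (t : k) (m : ℕ) :
    MultilinearMap k (fun _ : Fin (m + 2) => Fin 3 → k) (Fin 3 → k) :=
  term k m 0 0 (Pi.single 0 1) + term k m 0 1 (Pi.single 1 1) + term k m 0 2 (Pi.single 2 1) +
    term k m 1 2 (Pi.single 0 1) + term k m 1 1 (Pi.single 1 t)

theorem opM_apply (t : k) (m : ℕ) (a : Fin (m + 2) → Fin 3 → k) :
    opM k t m a = opS t m a := by
  ext j
  simp only [opM, add_apply, term_apply, Pi.add_apply, Pi.smul_apply, smul_eq_mul, opS]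
  fin_cases j <;> simp <;> ring

/-- The operations of all arities: those of arity `0` and `1` are zero. -/
def opAll {S : Type u} [CommRing S] (t : S) : (n : ℕ) → (Fin n → Fin 3 → S) → Fin 3 → S
  | 0, _ => 0
  | 1, _ => 0
  | m + 2, a => opS t m a

/-- The algebra with parameter `t`. -/
noncomputable def alg (Ω : ℕ → Type v) (t : k) : OmegaAlgebra k Ω (Fin 3 → k) where
  op n _ := match n with
    | 0 => 0
    | 1 => 0
    | m + 2 => opM k t m

theorem op_eq (Ω : ℕ → Type v) (t : k) (n : ℕ) (ω : Ω n) (a : Fin n → Fin 3 → k) :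
    (alg k Ω t).op n ω a = opAll t n a := by
  match n with
  | 0 => rfl
  | 1 => rfl
  | m + 2 => exact opM_apply k t m a

/-- Values of monomials, over any commutative ring. -/
def monoS {S : Type u} [CommRing S] {Ω : ℕ → Type v} (t : S) (s : ℕ → Fin 3 → S) :
    Monomial Ω ℕ → Fin 3 → S
  | Monomial.var x => s x
  | Monomial.app n _ args => opAll t n (fun i => monoS t s (args i))

theorem evalMonomial_eq (Ω : ℕ → Type v) (t : k) (s : ℕ → Fin 3 → k) (m : Monomial Ω ℕ) :
    evalMonomial (alg k Ω t) s m = monoS t s m := by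
  induction m with
  | var x => rfl
  | app n ω args ih =>
    have h : evalMonomial (alg k Ω t) s (Monomial.app n ω args) =
      (alg k Ω t).op n ω (fun i => evalMonomial (alg k Ω t) s (args i)) := rfl
    rw [h, op_eq]
    have h2 : (fun i => evalMonomial (alg k Ω t) s (args i)) = fun i => monoS t s (args i) :=
      funext ih
    rw [h2]
    rfl

theorem opAll_map {S S' : Type u} [CommRing S] [CommRing S'] (φ : S →+* S') (t : S) (n : ℕ)
    (a : Fin n → Fin 3 → S) (j : Fin 3) :
    φ (opAll t n a j) = opAll (φ t) n (fun i l => φ (a i l)) j := by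
  match n with
  | 0 => simp [opAll]
  | 1 => simp [opAll]
  | m + 2 =>
    simp only [opAll, opS, map_mul, map_add, map_prod]
    fin_cases j <;> simp

theorem monoS_map {S S' : Type u} [CommRing S] [CommRing S'] {Ω : ℕ → Type v} (φ : S →+* S')
    (t : S) (s : ℕ → Fin 3 → S) (m : Monomial Ω ℕ) (j : Fin 3) :
    φ (monoS t s m j) = monoS (φ t) (fun x l => φ (s x l)) m j := by
  induction m generalizing j with
  | var x => rfl
  | app n ω args ih =>
    have h : monoS t s (Monomial.app n ω args) = opAll t n (fun i => monoS t s (args i)) := rfl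
    rw [h, opAll_map]
    have h2 : (fun i l => φ (monoS t s (args i) l)) =
        fun i => monoS (φ t) (fun x l => φ (s x l)) (args i) := by
      funext i l
      exact ih i l
    rw [h2]
    rfl

/-- The rescaling factors. -/
def scal (c : k) : Fin 3 → k := ![1, c, c⁻¹]

theorem opAll_scal {c : k} (hc : c ≠ 0) (n : ℕ) (a : Fin n → Fin 3 → k) (j : Fin 3) :
    scal k c j * opAll c n a j = opAll 1 n (fun i l => scal k c l * a i l) j := by
  match n with
  | 0 => simp [opAll]
  | 1 => simp [opAll]
  | m + 2 =>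
    simp only [opAll, opS, scal]
    fin_cases j
    · simp
      left
      field_simp
    · simp
      ring
    · simp
      ring

theorem monoS_scal {Ω : ℕ → Type v} {c : k} (hc : c ≠ 0) (s : ℕ → Fin 3 → k)
    (m : Monomial Ω ℕ) (j : Fin 3) :
    scal k c j * monoS c s m j = monoS 1 (fun x l => scal k c l * s x l) m j := by
  induction m generalizing j with
  | var x => rfl
  | app n ω args ih =>
    have h : monoS c s (Monomial.app n ω args) = opAll c n (fun i => monoS c s (args i)) := rfl
    rw [h, opAll_scal k hc]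
    have h2 : (fun i l => scal k c l * monoS c s (args i) l) =
        fun i => monoS 1 (fun x l => scal k c l * s x l) (args i) := by
      funext i l
      exact ih i l
    rw [h2]
    rfl

theorem evalPoly_apply (Ω : ℕ → Type v) (t : k) (s : ℕ → Fin 3 → k) (f : FreeOmega k Ω)
    (j : Fin 3) :
    evalPoly (alg k Ω t) s f j = f.sum fun m c => c * monoS t s m j := by
  have h : evalPoly (alg k Ω t) s f = f.sum fun m c => c • monoS t s m := by
    unfold evalPoly
    refine Finsupp.sum_congr fun m _ => ?_
    rw [evalMonomial_eq]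
  rw [h]
  simp only [Finsupp.sum]
  rw [Finset.sum_apply]
  rfl

/-- The degenerate algebra satisfies all identities of the generic one. -/
theorem memVar [Infinite k] (Ω : ℕ → Type v) : MemVar (alg k Ω 0) (alg k Ω 1) := by
  classical
  intro f hf s
  funext j
  -- the value as a polynomial in the parameter
  let g : Polynomial k := f.sum fun m c =>
    Polynomial.C c * monoS (Polynomial.X : Polynomial k) (fun x l => Polynomial.C (s x l)) m j
  have hg : ∀ t : k, g.eval t = f.sum fun m c => c * monoS t s m j := by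
    intro t
    simp only [g, Finsupp.sum, Polynomial.eval_finsetSum, Polynomial.eval_mul, Polynomial.eval_C]
    refine Finset.sum_congr rfl fun m _ => ?_
    congr 1
    have := monoS_map (Polynomial.evalRingHom t) (Polynomial.X : Polynomial k)
      (fun x l => Polynomial.C (s x l)) m j
    simpa using this
  have h0 : ∀ t : k, t ≠ 0 → g.eval t = 0 := by
    intro t ht
    rw [hg]
    have h1 := congrFun (hf (fun x l => scal k t l * s x l)) j
    rw [evalPoly_apply] at h1
    have h2 : (f.sum fun m c => c * monoS (1 : k) (fun x l => scal k t l * s x l) m j) =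
        scal k t j * f.sum fun m c => c * monoS t s m j := by
      simp only [Finsupp.sum, Finset.mul_sum]
      refine Finset.sum_congr rfl fun m _ => ?_
      rw [← monoS_scal k ht]
      ring
    have h3 : scal k t j ≠ 0 := by
      fin_cases j <;> simp [scal, ht]
    have h4 : scal k t j * (f.sum fun m c => c * monoS t s m j) = 0 := by
      rw [← h2]; exact h1
    exact (mul_eq_zero.mp h4).resolve_left h3
  have h5 : g = 0 := by
    by_contra hne
    have hfin : (g.roots.toFinset : Set k).Finite := Finset.finite_toSet _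
    have hsub : ({0}ᶜ : Set k) ⊆ (g.roots.toFinset : Set k) := by
      intro t ht
      simp only [Finset.mem_coe, Multiset.mem_toFinset]
      exact (Polynomial.mem_roots hne).2 (h0 t ht)
    exact (Set.Finite.infinite_compl (Set.finite_singleton (0 : k))) (hfin.subset hsub)
  have h6 := hg 0
  rw [h5, Polynomial.eval_zero] at h6
  rw [evalPoly_apply]
  exact h6.symm

/-- The underlying binary product. -/
def star (t : k) (x y : Fin 3 → k) : Fin 3 → k :=
  fun j => x 0 * y j + x 1 * (if j = 0 then y 2 else if j = 1 then t * y 1 else 0)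

/-- The first basis vector. -/
def e0 : Fin 3 → k := Pi.single 0 1

/-- The arguments `x, y, e₀, …, e₀`. -/
def args (m : ℕ) (x y : Fin 3 → k) : Fin (m + 2) → Fin 3 → k :=
  Fin.cons x (Fin.cons y fun _ => e0 k)

theorem opAll_args (t : k) (m : ℕ) (x y : Fin 3 → k) :
    opAll t (m + 2) (args k m x y) = star k t x y := by
  funext j
  simp [opAll, opS, star, e0, args]

/-- Multiplying elements of an ideal. -/
theorem star_mem (Ω : ℕ → Type v) (t : k) {m : ℕ} (ω : Ω (m + 2)) {I : Submodule k (Fin 3 → k)}
    (hI : IsIdealOf (alg k Ω t) I ⊤) (x y : Fin 3 → k) (h : x ∈ I ∨ y ∈ I) :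
    star k t x y ∈ I := by
  have h1 := hI.2 (m + 2) ω (args k m x y) (fun _ => trivial) (by
    rcases h with h | h
    · exact ⟨0, h⟩
    · exact ⟨1, h⟩)
  rwa [op_eq, opAll_args] at h1

theorem e0_mem (Ω : ℕ → Type v) (t : k) {m : ℕ} (ω : Ω (m + 2)) {I : Submodule k (Fin 3 → k)}
    (hI : IsIdealOf (alg k Ω t) I ⊤) (hne : I ≠ ⊥) : e0 k ∈ I := by
  -- scaling
  have hs : ∀ (c : k) (z : Fin 3 → k), c ≠ 0 → c • z ∈ I → z ∈ I := by
    intro c z hc hz
    exact (I.smul_mem_iff hc).1 hz
  -- the vector `e₊`
  have hplus : (Pi.single 1 1 : Fin 3 → k) ∈ I → e0 k ∈ I := by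
    intro h
    have := star_mem k Ω t ω hI (Pi.single 1 1 : Fin 3 → k) (Pi.single 2 1 : Fin 3 → k) (Or.inl h)
    have h2 : star k t (Pi.single 1 1) (Pi.single 2 1) = e0 k := by
      funext j
      fin_cases j <;> simp [star, e0]
    rwa [h2] at this
  -- a vector with nonzero last coordinate
  have hlast : ∀ x : Fin 3 → k, x ∈ I → x 2 ≠ 0 → e0 k ∈ I := by
    intro x hx hx2
    have h1 := star_mem k Ω t ω hI (Pi.single 1 1 : Fin 3 → k) x (Or.inr hx)
    by_cases hb : t * x 1 = 0
    · have h2 : star k t (Pi.single 1 1) x = x 2 • e0 k := by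
        funext j
        fin_cases j <;> simp [star, e0, hb]
      rw [h2] at h1
      exact hs _ _ hx2 h1
    · have h3 := star_mem k Ω t ω hI (Pi.single 1 1 : Fin 3 → k) _ (Or.inr h1)
      have h2 : star k t (Pi.single 1 1) (star k t (Pi.single 1 1) x) =
          (t * (t * x 1)) • (Pi.single 1 1 : Fin 3 → k) := by
        funext j
        fin_cases j <;> simp [star]
      rw [h2] at h3
      refine hplus (hs _ _ (mul_ne_zero ?_ hb) h3)
      intro h0
      exact hb (by rw [h0, zero_mul])
  obtain ⟨x, hx, hx0⟩ := (Submodule.ne_bot_iff I).1 hne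
  by_cases h2 : x 2 = 0
  · have h1 := star_mem k Ω t ω hI x (Pi.single 2 1 : Fin 3 → k) (Or.inl hx)
    by_cases h0 : x 0 = 0
    · have h3 : star k t x (Pi.single 2 1) = x 1 • e0 k := by
        funext j
        fin_cases j <;> simp [star, e0, h0]
      rw [h3] at h1
      refine hs _ _ ?_ h1
      intro h4
      apply hx0
      funext j
      fin_cases j
      · exact h0
      · exact h4
      · exact h2
    · refine hlast _ h1 ?_
      simpa [star] using h0
  · exact hlast x hx h2

/-- The algebras are prime (they are even simple). -/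
theorem isPrimeAlgebra (Ω : ℕ → Type v) (t : k) {m : ℕ} (ω : Ω (m + 2)) :
    IsPrimeAlgebra (alg k Ω t) := by
  classical
  intro I J hI hJ hI0 hJ0
  have hI1 := e0_mem k Ω t ω hI hI0
  have hJ1 := e0_mem k Ω t ω hJ hJ0
  intro hbot
  have hmem : e0 k ∈ setProd (alg k Ω t) ![(I : Set (Fin 3 → k)), (J : Set (Fin 3 → k))] := by
    refine Submodule.subset_span ⟨m,
      Finsupp.single (Monomial.app (m + 2) ω fun i => Monomial.var (i : ℕ)) 1,
      fun _ => e0 k, ?_, ?_, ?_⟩
    · intro mo hmo x
      have hmo' := Finsupp.support_single_subset hmo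
      rw [Finset.mem_singleton] at hmo'
      subst hmo'
      have h1 : Monomial.occ x (Monomial.app (m + 2) ω fun i => Monomial.var (i : ℕ)) =
          ∑ i : Fin (m + 2), if (i : ℕ) = x then 1 else 0 := rfl
      rw [h1]
      by_cases hx : x < m + 2
      · rw [if_pos (by omega)]
        rw [Finset.sum_eq_single (⟨x, hx⟩ : Fin (m + 2))]
        · simp
        · intro b _ hb
          rw [if_neg]
          intro h
          exact hb (Fin.ext h)
        · intro h
          exact absurd (Finset.mem_univ _) h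
      · rw [if_neg (by omega)]
        refine Finset.sum_eq_zero fun i _ => ?_
        rw [if_neg]
        have := i.2
        omega
    · intro i
      fin_cases i
      · exact hI1
      · exact hJ1
    · funext j
      rw [evalPoly_apply]
      rw [Finsupp.sum_single_index (by simp)]
      have h1 : monoS t (fun _ => e0 k)
          (Monomial.app (m + 2) ω fun i => Monomial.var (i : ℕ)) =
          opAll t (m + 2) (fun _ => e0 k) := rfl
      rw [h1]
      fin_cases j <;> simp [opAll, opS, e0]
  rw [hbot] at hmem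
  have h0 : e0 k = 0 := (Submodule.mem_bot k).1 hmem
  have := congrFun h0 0
  simp [e0] at this

/-- The degenerate algebra is not a section of the generic one. -/
theorem not_isSection (Ω : ℕ → Type v) {m : ℕ} (ω : Ω (m + 2)) :
    ¬ IsSection (alg k Ω 0) (alg k Ω 1) := by
  rintro ⟨R, I, hR, hI, e, he⟩
  -- dimension count
  have h1 : Module.finrank k (R ⧸ I.comap R.subtype) = 3 := by
    rw [LinearEquiv.finrank_eq e]
    simp
  have h2 : Module.finrank k (R ⧸ I.comap R.subtype) +
      Module.finrank k (I.comap R.subtype) = Module.finrank k R :=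
    Submodule.finrank_quotient_add_finrank _
  have h3 : Module.finrank k R ≤ 3 := by
    have := Submodule.finrank_le R
    simpa using this
  have hRtop : R = ⊤ := by
    apply Submodule.eq_top_of_finrank_eq
    simp
    omega
  have hIbot : I.comap R.subtype = ⊥ := by
    rw [← Submodule.finrank_eq_zero (R := k)]
    omega
  -- square-zero elements
  have key : ∀ x : Fin 3 → k, star k 0 x x = 0 →
      ∃ y : R, e (Submodule.Quotient.mk y) = x ∧ (y : Fin 3 → k) 0 = 0 ∧
        (y : Fin 3 → k) 1 = 0 := by
    intro x hx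
    obtain ⟨q, hq⟩ := e.surjective x
    obtain ⟨y, rfl⟩ := Submodule.Quotient.mk_surjective _ q
    refine ⟨y, hq, ?_⟩
    have he0 : e0 k ∈ R := by rw [hRtop]; trivial
    have h4 := he (m + 2) ω (Fin.cons y (Fin.cons y fun _ => ⟨e0 k, he0⟩))
    have h5 : (alg k Ω 0).op (m + 2) ω (fun i => e (Submodule.Quotient.mk
        ((Fin.cons y (Fin.cons y fun _ => ⟨e0 k, he0⟩) : Fin (m + 2) → R) i))) = 0 := by
      rw [op_eq]
      funext j
      have h6 := congrFun hx j
      simp only [star, Pi.zero_apply] at h6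
      have h7 : (Fin.cons y (Fin.cons y fun _ => ⟨e0 k, he0⟩) : Fin (m + 2) → R) 1 = y := rfl
      simp only [opAll, opS, Fin.cons_zero, h7, hq, h6, mul_zero, Pi.zero_apply]
    rw [h5] at h4
    have h6 := e.map_eq_zero_iff.1 h4
    rw [Submodule.Quotient.mk_eq_zero, hIbot, Submodule.mem_bot] at h6
    have h7 := congrArg Subtype.val h6
    simp only [op_eq] at h7
    have h8 : (fun i => (((Fin.cons y (Fin.cons y fun _ => ⟨e0 k, he0⟩) :
        Fin (m + 2) → R) i : R) : Fin 3 → k)) = args k m y y := by
      funext i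
      refine Fin.cases ?_ (fun i => Fin.cases ?_ (fun i => ?_) i) i <;> rfl
    rw [h8, opAll_args] at h7
    have c0 : (y : Fin 3 → k) 0 * (y : Fin 3 → k) 0 +
        (y : Fin 3 → k) 1 * (y : Fin 3 → k) 2 = 0 := by
      have := congrFun h7 0
      simpa only [star, if_true, ZeroMemClass.coe_zero, Pi.zero_apply] using this
    have c1 : (y : Fin 3 → k) 0 * (y : Fin 3 → k) 1 +
        (y : Fin 3 → k) 1 * (y : Fin 3 → k) 1 = 0 := by
      have := congrFun h7 1
      simpa [star] using this
    have c2 : (y : Fin 3 → k) 0 * (y : Fin 3 → k) 2 = 0 := by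
      have := congrFun h7 2
      simpa [star] using this
    have d0 : (y : Fin 3 → k) 0 = 0 := by
      by_contra hne
      have d2 := (mul_eq_zero.1 c2).resolve_left hne
      rw [d2, mul_zero, add_zero] at c0
      exact hne (mul_self_eq_zero.1 c0)
    refine ⟨d0, ?_⟩
    rw [d0, zero_mul, zero_add] at c1
    exact mul_self_eq_zero.1 c1
  obtain ⟨y, hy, hy0, hy1⟩ := key (Pi.single 1 1) (by
    funext j
    fin_cases j <;> simp [star])
  obtain ⟨z, hz, hz0, hz1⟩ := key (Pi.single 2 1) (by
    funext j
    fin_cases j <;> simp [star])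
  -- the two preimages are proportional
  have hprop : (z : Fin 3 → k) 2 • y = (y : Fin 3 → k) 2 • z := by
    apply Subtype.ext
    funext j
    change (z : Fin 3 → k) 2 * (y : Fin 3 → k) j = (y : Fin 3 → k) 2 * (z : Fin 3 → k) j
    fin_cases j
    · change (z : Fin 3 → k) 2 * (y : Fin 3 → k) 0 = (y : Fin 3 → k) 2 * (z : Fin 3 → k) 0
      rw [hy0, hz0, mul_zero, mul_zero]
    · change (z : Fin 3 → k) 2 * (y : Fin 3 → k) 1 = (y : Fin 3 → k) 2 * (z : Fin 3 → k) 1
      rw [hy1, hz1, mul_zero, mul_zero]
    · change (z : Fin 3 → k) 2 * (y : Fin 3 → k) 2 = (y : Fin 3 → k) 2 * (z : Fin 3 → k) 2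
      exact mul_comm _ _
  have himg : (z : Fin 3 → k) 2 • (Pi.single 1 1 : Fin 3 → k) =
      (y : Fin 3 → k) 2 • (Pi.single 2 1 : Fin 3 → k) := by
    rw [← hy, ← hz, ← map_smul, ← map_smul, ← Submodule.Quotient.mk_smul,
      ← Submodule.Quotient.mk_smul, hprop]
  have hz2 : (z : Fin 3 → k) 2 = 0 := by
    have := congrFun himg 1
    simpa using this
  -- hence `z = 0`
  have hzz : z = 0 := by
    apply Subtype.ext
    funext j
    fin_cases j
    · exact hz0
    · exact hz1
    · exact hz2
  rw [hzz, Submodule.Quotient.mk_zero, map_zero] at hz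
  have := congrFun hz 2
  simp at this

end Construction

/-- **Main theorem.**  For every infinite field `k` (in particular for every algebraically closed
field) and every signature `Ω` with `Ωₙ ≠ ∅` for some `n ≥ 2` there are finite-dimensional
(in fact three-dimensional) prime `Ω`-algebras `𝒜` and `𝒜'` over `k` such that `𝒜` belongs to
`var 𝒜'`, that is, `𝒜` satisfies all polynomial identities of `𝒜'`, and yet `𝒜` is isomorphic to
no section of `𝒜'`. -/
theorem result (k : Type u) [Field k] [Infinite k] (Ω : ℕ → Type v)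
    (hΩ : ∃ n : ℕ, 2 ≤ n ∧ Nonempty (Ω n)) :
    ∃ (A A' : Type u) (_ : AddCommGroup A) (_ : AddCommGroup A') (_ : Module k A)
      (_ : Module k A') (𝒜 : OmegaAlgebra k Ω A) (𝒜' : OmegaAlgebra k Ω A'),
      Module.finrank k A = 3 ∧ Module.finrank k A' = 3 ∧
        IsPrimeAlgebra 𝒜 ∧ IsPrimeAlgebra 𝒜' ∧ MemVar 𝒜 𝒜' ∧ ¬ IsSection 𝒜 𝒜' := by
  obtain ⟨n, hn, ⟨ω⟩⟩ := hΩ
  obtain ⟨m, rfl⟩ := Nat.exists_eq_add_of_le' hn
  exact ⟨Fin 3 → k, Fin 3 → k, inferInstance, inferInstance, inferInstance, inferInstance,
    alg k Ω 0, alg k Ω 1, by simp, by simp, isPrimeAlgebra k Ω 0 ω, isPrimeAlgebra k Ω 1 ω,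
    memVar k Ω, not_isSection k Ω ω⟩

end Pool.Agent.Results.MP_2fa119_al.PrimeNotSection
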